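import Pool.Agent.Helper63.PL.Goals

/-!
Packet LP of MP_32e3a9_an : the `L^p` norm is controlled by the gradient and the supremum of the
mollified function.
-/

set_option autoImplicit false

open MeasureTheory Set Filter Topology
open scoped ENNReal ContDiff

namespace Pool.Agent.Helper77.PL

open Pool.Agent.Helper63.PL

variable {N : ℕ}

theorem gradient_continuous {φ : E N → ℝ} (h : ContDiff ℝ ∞ φ) : Continuous (gradient φ) := by
  have h1 : Continuous (fderiv ℝ φ) := h.continuous_fderiv (by simp)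
  have h2 : gradient φ = fun x => (InnerProductSpace.toDual ℝ (E N)).symm (fderiv ℝ φ x) := rfl
  rw [h2]
  exact (InnerProductSpace.toDual ℝ (E N)).symm.continuous.comp h1

theorem enorm_gradient (φ : E N → ℝ) (x : E N) : ‖gradient φ x‖ₑ = ‖fderiv ℝ φ x‖ₑ := by
  have h : ‖gradient φ x‖ = ‖fderiv ℝ φ x‖ :=
    (InnerProductSpace.toDual ℝ (E N)).symm.norm_map (fderiv ℝ φ x)
  rw [← ofReal_norm, ← ofReal_norm, h]

theorem diff_le {φ : E N → ℝ} (h : ContDiff ℝ ∞ φ) (x z : E N) :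
    ‖φ (x - z) - φ x‖ₑ ≤ (∫⁻ t in Ioc (0 : ℝ) 1, ‖gradient φ (x - t • z)‖ₑ) * ‖z‖ₑ := by
  have hd : Differentiable ℝ φ := h.differentiable (by simp)
  have h1 : ∀ t : ℝ, HasDerivAt (fun t : ℝ => φ (x - t • z)) (fderiv ℝ φ (x - t • z) (-z)) t := by
    intro t
    have e1 : HasDerivAt (fun t : ℝ => x - t • z) (-z) t := by
      have := ((hasDerivAt_id t).smul_const z).const_sub x
      simpa using this
    exact (hd (x - t • z)).hasFDerivAt.comp_hasDerivAt t e1
  have hc : Continuous fun t : ℝ => fderiv ℝ φ (x - t • z) (-z) := by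
    have e1 : Continuous (fderiv ℝ φ) := h.continuous_fderiv (by simp)
    have e2 : Continuous fun t : ℝ => x - t • z := by fun_prop
    exact (e1.comp e2).clm_apply continuous_const
  have h2 : ∫ t in (0 : ℝ)..1, fderiv ℝ φ (x - t • z) (-z) = φ (x - z) - φ x := by
    rw [intervalIntegral.integral_eq_sub_of_hasDerivAt (fun t _ => h1 t)
      (hc.intervalIntegrable 0 1)]
    simp
  rw [← h2, intervalIntegral.integral_of_le zero_le_one]
  refine (enorm_integral_le_lintegral_enorm _).trans ?_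
  rw [← lintegral_mul_const' _ _ enorm_ne_top]
  refine lintegral_mono fun t => ?_
  refine (ContinuousLinearMap.le_opENorm _ _).trans ?_
  rw [enorm_neg, enorm_gradient]

theorem mol_sub {δ B : ℝ} {ρ : E N → ℝ} (hρ : IsKernel N δ B ρ) {φ : E N → ℝ}
    (h : Continuous φ) (x : E N) :
    mol ρ φ x - φ x = ∫ z, ρ z * (φ (x - z) - φ x) := by
  have h1 : mol ρ φ x = ∫ z, ρ z * φ (x - z) := by
    unfold mol
    rw [← integral_sub_left_eq_self (fun z => ρ z * φ (x - z)) volume x]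
    simp
  have hρc : Continuous ρ := hρ.smooth.continuous
  have i1 : Integrable (fun z => ρ z * φ (x - z)) := by
    refine Continuous.integrable_of_hasCompactSupport (by fun_prop) ?_
    exact hρ.compact.mul_right
  have i2 : Integrable (fun z => ρ z * φ x) :=
    (hρc.integrable_of_hasCompactSupport hρ.compact).mul_const _
  rw [h1]
  simp only [mul_sub]
  rw [integral_sub i1 i2, integral_mul_const, hρ.integral, one_mul]

/-- The probability space of the shifts. -/
noncomputable def nu (ρ : E N → ℝ) : Measure (E N × ℝ) :=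
  ((volume : Measure (E N)).withDensity fun z => ‖ρ z‖ₑ).prod (volume.restrict (Ioc (0 : ℝ) 1))

theorem lint_rho {δ B : ℝ} {ρ : E N → ℝ} (hρ : IsKernel N δ B ρ) : ∫⁻ z, ‖ρ z‖ₑ = 1 := by
  have hρc : Continuous ρ := hρ.smooth.continuous
  have hi : Integrable ρ (volume : Measure (E N)) :=
    hρc.integrable_of_hasCompactSupport hρ.compact
  have h1 := ofReal_integral_eq_lintegral_ofReal hi (ae_of_all _ hρ.nonneg)
  rw [hρ.integral, ENNReal.ofReal_one] at h1
  rw [h1]
  refine lintegral_congr fun z => ?_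
  rw [← ofReal_norm, Real.norm_of_nonneg (hρ.nonneg z)]

theorem nu_prob {δ B : ℝ} {ρ : E N → ℝ} (hρ : IsKernel N δ B ρ) :
    IsProbabilityMeasure ((volume : Measure (E N)).withDensity fun z => ‖ρ z‖ₑ) := by
  refine ⟨?_⟩
  rw [withDensity_apply _ MeasurableSet.univ, Measure.restrict_univ]
  exact lint_rho hρ

instance i01 : IsProbabilityMeasure (volume.restrict (Ioc (0 : ℝ) 1)) := ⟨by simp⟩

theorem mol_bound {δ B : ℝ} {ρ : E N → ℝ} (hρ : IsKernel N δ B ρ) {φ : E N → ℝ}
    (h : ContDiff ℝ ∞ φ) (x : E N) :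
    ‖mol ρ φ x - φ x‖ₑ ≤ ENNReal.ofReal δ * ∫⁻ w, ‖gradient φ (x - w.2 • w.1)‖ₑ ∂(nu ρ) := by
  have hprob := nu_prob hρ
  have hρc : Continuous ρ := hρ.smooth.continuous
  have hg := gradient_continuous h
  have hcont : Continuous fun w : E N × ℝ => ‖gradient φ (x - w.2 • w.1)‖ₑ := by
    have e : Continuous fun w : E N × ℝ => gradient φ (x - w.2 • w.1) :=
      hg.comp (by fun_prop)
    exact e.enorm
  have h2 : ∫⁻ w, ‖gradient φ (x - w.2 • w.1)‖ₑ ∂(nu ρ) =
      ∫⁻ z, ‖ρ z‖ₑ * ∫⁻ t in Ioc (0 : ℝ) 1, ‖gradient φ (x - t • z)‖ₑ := by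
    unfold nu
    rw [lintegral_prod _ hcont.aemeasurable, lintegral_withDensity_eq_lintegral_mul]
    · rfl
    · exact hρc.enorm.measurable
    · exact (hcont.measurable).lintegral_prod_right'
  rw [mol_sub hρ h.continuous, h2, ← lintegral_const_mul' _ _ ENNReal.ofReal_ne_top]
  refine (enorm_integral_le_lintegral_enorm _).trans (lintegral_mono fun z => ?_)
  rw [enorm_mul]
  by_cases hz : δ ≤ ‖z‖
  · rw [hρ.zero z hz]
    simp
  · push Not at hz
    have e1 : ‖z‖ₑ ≤ ENNReal.ofReal δ := by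
      rw [← ofReal_norm]
      exact ENNReal.ofReal_le_ofReal hz.le
    calc ‖ρ z‖ₑ * ‖φ (x - z) - φ x‖ₑ
        ≤ ‖ρ z‖ₑ * ((∫⁻ t in Ioc (0 : ℝ) 1, ‖gradient φ (x - t • z)‖ₑ) * ENNReal.ofReal δ) :=
          mul_le_mul_right ((diff_le h x z).trans (mul_le_mul_right e1 _)) _
      _ = _ := by ring

theorem lp_smooth {δ B : ℝ} {ρ : E N → ℝ} (hρ : IsKernel N δ B ρ) {φ : E N → ℝ}
    (h : ContDiff ℝ ∞ φ) (p : ℝ≥0∞) (hp1 : 1 ≤ p) (hp : p ≠ ⊤) :
    eLpNorm (fun x => mol ρ φ x - φ x) p volume ≤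
      ENNReal.ofReal δ * eLpNorm (gradient φ) p volume := by
  have hprob := nu_prob hρ
  have hg := gradient_continuous h
  have hp0 : p ≠ 0 := (lt_of_lt_of_le one_pos hp1).ne'
  have hP : 0 < p.toReal := ENNReal.toReal_pos hp0 hp
  have hnu : IsProbabilityMeasure (nu ρ) := by unfold nu; infer_instance
  have hcont : Continuous fun q : E N × (E N × ℝ) => gradient φ (q.1 - q.2.2 • q.2.1) :=
    hg.comp (by fun_prop)
  -- Jensen
  have hJ : ∀ x, (∫⁻ w, ‖gradient φ (x - w.2 • w.1)‖ₑ ∂(nu ρ)) ^ p.toReal ≤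
      ∫⁻ w, ‖gradient φ (x - w.2 • w.1)‖ₑ ^ p.toReal ∂(nu ρ) := by
    intro x
    have hc : Continuous fun w : E N × ℝ => gradient φ (x - w.2 • w.1) :=
      hg.comp (by fun_prop)
    have h1 := eLpNorm_le_eLpNorm_of_exponent_le (μ := nu ρ) hp1 hc.aestronglyMeasurable
    rw [eLpNorm_one_eq_lintegral_enorm, eLpNorm_eq_lintegral_rpow_enorm_toReal hp0 hp] at h1
    have h2 := ENNReal.rpow_le_rpow h1 hP.le
    rw [← ENNReal.rpow_mul, one_div, inv_mul_cancel₀ hP.ne', ENNReal.rpow_one] at h2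
    exact h2
  rw [eLpNorm_eq_lintegral_rpow_enorm_toReal hp0 hp, eLpNorm_eq_lintegral_rpow_enorm_toReal hp0 hp]
  have h3 : ∫⁻ x, ‖mol ρ φ x - φ x‖ₑ ^ p.toReal ≤
      (ENNReal.ofReal δ) ^ p.toReal * ∫⁻ x, ‖gradient φ x‖ₑ ^ p.toReal := by
    calc ∫⁻ x, ‖mol ρ φ x - φ x‖ₑ ^ p.toReal
        ≤ ∫⁻ x, (ENNReal.ofReal δ) ^ p.toReal *
          ∫⁻ w, ‖gradient φ (x - w.2 • w.1)‖ₑ ^ p.toReal ∂(nu ρ) := by
          refine lintegral_mono fun x => ?_
          refine (ENNReal.rpow_le_rpow (mol_bound hρ h x) hP.le).trans ?_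
          rw [ENNReal.mul_rpow_of_nonneg _ _ hP.le]
          exact mul_le_mul_right (hJ x) _
      _ = (ENNReal.ofReal δ) ^ p.toReal *
          ∫⁻ x, ∫⁻ w, ‖gradient φ (x - w.2 • w.1)‖ₑ ^ p.toReal ∂(nu ρ) := by
          rw [lintegral_const_mul' _ _ (ENNReal.rpow_ne_top_of_nonneg hP.le ENNReal.ofReal_ne_top)]
      _ = (ENNReal.ofReal δ) ^ p.toReal *
          ∫⁻ w, ∫⁻ x, ‖gradient φ (x - w.2 • w.1)‖ₑ ^ p.toReal ∂volume ∂(nu ρ) := by
          rw [lintegral_lintegral_swap]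
          exact (hcont.enorm.measurable.pow_const p.toReal).aemeasurable
      _ = _ := by
          congr 1
          have e1 : ∀ w : E N × ℝ, ∫⁻ x, ‖gradient φ (x - w.2 • w.1)‖ₑ ^ p.toReal ∂volume =
              ∫⁻ x, ‖gradient φ x‖ₑ ^ p.toReal := fun w =>
            lintegral_sub_right_eq_self (fun x => ‖gradient φ x‖ₑ ^ p.toReal) (w.2 • w.1)
          simp only [e1]
          rw [lintegral_const, measure_univ, mul_one]
  calc (∫⁻ x, ‖mol ρ φ x - φ x‖ₑ ^ p.toReal) ^ (1 / p.toReal)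
      ≤ ((ENNReal.ofReal δ) ^ p.toReal * ∫⁻ x, ‖gradient φ x‖ₑ ^ p.toReal) ^ (1 / p.toReal) :=
        ENNReal.rpow_le_rpow h3 (by positivity)
    _ = _ := by
        rw [ENNReal.mul_rpow_of_nonneg _ _ (by positivity), ← ENNReal.rpow_mul,
          mul_one_div_cancel hP.ne', ENNReal.rpow_one]

theorem lp (h : KeStmt) (h2 : SuStmt) : LpStmt := by
  intro N δ B ρ hδ hρ p _ hp b D hb hD q hq s hs
  have hp1 : 1 ≤ p := Fact.out
  have hp0 : p ≠ 0 := (lt_of_lt_of_le one_pos hp1).ne'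
  have hP : 0 < p.toReal := ENNReal.toReal_pos hp0 hp
  obtain ⟨k1, k2, k3⟩ := h.2 N δ B ρ hδ hρ p hp
  set W := (volume (Metric.closedBall (0 : E N) (b + δ))).toReal with hW
  -- the test pairs
  have htest : ∀ q ∈ TestPairs N p D, ∀ s : ℝ, (∀ x, |mol ρ q.1 x| ≤ s) →
      ‖q.1‖ ≤ δ * ‖q.2‖ + s * W ^ (1 / p.toReal) := by
    intro q hq s hs
    have hs0 : 0 ≤ s := (abs_nonneg _).trans (hs 0)
    have hsupp := h2 N δ B ρ hδ hρ p hp b D hD q (subset_closure hq)
    obtain ⟨φ, hφ, hφc, hφD, e1, e2⟩ := hq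
    have hmol : ∀ x, mol ρ q.1 x = mol ρ φ x := by
      intro x
      unfold mol
      refine integral_congr_ae ?_
      filter_upwards [e1] with y hy
      rw [hy]
    have n1 : ‖q.1‖ = (eLpNorm φ p volume).toReal := by
      rw [Lp.norm_def, eLpNorm_congr_ae e1]
    have n2 : ‖q.2‖ = (eLpNorm (gradient φ) p volume).toReal := by
      rw [Lp.norm_def, eLpNorm_congr_ae e2]
    have f2 : eLpNorm (gradient φ) p volume ≠ ⊤ := by
      rw [← eLpNorm_congr_ae e2]
      exact (Lp.memLp q.2).eLpNorm_ne_top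
    have hmc : Continuous (mol ρ φ) := by
      have := (k1 q.1).2
      have e : mol ρ q.1 = mol ρ φ := funext hmol
      rwa [e] at this
    have m1 : eLpNorm (mol ρ φ) p volume ≤
        volume (Metric.closedBall (0 : E N) (b + δ)) ^ (1 / p.toReal) * ENNReal.ofReal s := by
      have hsub : (mol ρ φ).support ⊆ Metric.closedBall (0 : E N) (b + δ) := by
        intro x hx
        rw [Metric.mem_closedBall, dist_zero_right]
        by_contra hcon
        push Not at hcon
        apply hx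
        rw [← hmol]
        exact hsupp x hcon
      rw [← eLpNorm_restrict_eq_of_support_subset hsub]
      have := eLpNorm_le_of_ae_bound (p := p)
        (μ := volume.restrict (Metric.closedBall (0 : E N) (b + δ))) (f := mol ρ φ) (C := s)
        (ae_of_all _ fun x => by
          rw [Real.norm_eq_abs, ← hmol]
          exact hs x)
      rw [Measure.restrict_apply_univ] at this
      rw [one_div]
      exact this
    have hVtop : volume (Metric.closedBall (0 : E N) (b + δ)) ≠ ⊤ :=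
      (isCompact_closedBall _ _).measure_lt_top.ne
    have m2 : eLpNorm φ p volume ≤ ENNReal.ofReal δ * eLpNorm (gradient φ) p volume +
        volume (Metric.closedBall (0 : E N) (b + δ)) ^ (1 / p.toReal) * ENNReal.ofReal s := by
      have e3 : φ = (mol ρ φ) - fun x => mol ρ φ x - φ x := by
        funext x
        simp
      calc eLpNorm φ p volume = eLpNorm ((mol ρ φ) - fun x => mol ρ φ x - φ x) p volume := by
            rw [← e3]
        _ ≤ eLpNorm (mol ρ φ) p volume + eLpNorm (fun x => mol ρ φ x - φ x) p volume :=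
            eLpNorm_sub_le hmc.aestronglyMeasurable
              (hmc.sub hφ.continuous).aestronglyMeasurable hp1
        _ ≤ _ := by
            rw [add_comm]
            exact add_le_add (lp_smooth hρ hφ p hp1 hp) m1
    have t1 : ENNReal.ofReal δ * eLpNorm (gradient φ) p volume ≠ ⊤ :=
      ENNReal.mul_ne_top ENNReal.ofReal_ne_top f2
    have t2 : volume (Metric.closedBall (0 : E N) (b + δ)) ^ (1 / p.toReal) *
        ENNReal.ofReal s ≠ ⊤ :=
      ENNReal.mul_ne_top (ENNReal.rpow_ne_top_of_nonneg (by positivity) hVtop)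
        ENNReal.ofReal_ne_top
    have m3 := ENNReal.toReal_mono (ENNReal.add_ne_top.2 ⟨t1, t2⟩) m2
    rw [ENNReal.toReal_add t1 t2, ENNReal.toReal_mul, ENNReal.toReal_mul,
      ENNReal.toReal_ofReal hδ.le, ENNReal.toReal_ofReal hs0, ← ENNReal.toReal_rpow, ← n1, ← n2,
      ← hW] at m3
    linarith
  -- the closure
  obtain ⟨u, hu, hlim⟩ := mem_closure_iff_seq_limit.1 hq
  have l1 : Tendsto (fun n => ‖(u n).1‖) atTop (𝓝 ‖q.1‖) :=
    ((continuous_norm.comp continuous_fst).tendsto q).comp hlim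
  have l2 : Tendsto (fun n => ‖(u n).2‖) atTop (𝓝 ‖q.2‖) :=
    ((continuous_norm.comp continuous_snd).tendsto q).comp hlim
  have l3 : Tendsto (fun n => ‖(u n).1 - q.1‖) atTop (𝓝 0) := by
    have hc : Continuous fun v : Pair N p => ‖v.1 - q.1‖ := by fun_prop
    have h0 := (hc.tendsto q).comp hlim
    have e0 : ‖q.1 - q.1‖ = 0 := by rw [sub_self, norm_zero]
    rw [e0] at h0
    exact h0
  have hineq : ∀ n, ‖(u n).1‖ ≤ δ * ‖(u n).2‖ +
      (s + B ^ (1 / p.toReal) * ‖(u n).1 - q.1‖) * W ^ (1 / p.toReal) := by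
    intro n
    refine htest (u n) (hu n) _ fun x => ?_
    have e1 := k2 (u n).1 q.1 x
    have e2 := (k1 ((u n).1 - q.1)).1 x
    have e3 : mol ρ (u n).1 x = mol ρ q.1 x + mol ρ ((u n).1 - q.1 : Lp ℝ p _) x := by
      rw [e1]
      ring
    rw [e3]
    exact (abs_add_le _ _).trans (add_le_add (hs x) e2)
  have hR : Tendsto (fun n => δ * ‖(u n).2‖ +
      (s + B ^ (1 / p.toReal) * ‖(u n).1 - q.1‖) * W ^ (1 / p.toReal)) atTop
      (𝓝 (δ * ‖q.2‖ + (s + B ^ (1 / p.toReal) * 0) * W ^ (1 / p.toReal))) :=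
    (l2.const_mul δ).add (((l3.const_mul _).const_add s).mul_const _)
  have hfin := le_of_tendsto_of_tendsto' l1 hR hineq
  rwa [mul_zero, add_zero] at hfin

end Pool.Agent.Helper77.PL
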